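import Mathlib

/-!
# MP_16979d_co: the exponential growth rate of the maximum number of cycles exists

`c K m` is the maximum number of cycles (counted by their edge sets) in a graph with exactly `m` edges and
all degrees at most `K` (`K = ⊤`: no condition), `p K m` the maximum number of paths between two vertices
of degree `< K`.  Joining two graphs by a bridge gives `p K m * p K n ≤ p K (m + n + 1)`; deleting an edge
gives `c K (m + 1) ≤ (m + 1) * p K m`; joining the two ends of the paths to a new vertex gives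
`p K m ≤ c K (m + 2)` (if `2 ≤ p K m`).  So by Fekete's lemma the limit `L K` of `c K m ^ (1 / m)` exists
and is the supremum of `p K m ^ (1 / (m + 1))`; a single graph has bounded degrees, so `L K → L ⊤`.
-/

set_option autoImplicit false

open Filter Topology
namespace Pool.Agent.Results.MP_16979d_co.GrowthRateExists

/-- the edge sets of the cycles of `G` -/
def cycles {V : Type} (G : SimpleGraph V) : Set (Set (Sym2 V)) :=
  {s | ∃ (u : V) (w : G.Walk u u), w.IsCycle ∧ s = {e | e ∈ w.edges}}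

/-- the edge sets of the paths of `G` from `u` to `v` (for `u = v` only the empty set) -/
def paths {V : Type} (G : SimpleGraph V) (u v : V) : Set (Set (Sym2 V)) :=
  {s | ∃ w : G.Walk u v, w.IsPath ∧ s = {e | e ∈ w.edges}}

/-- all degrees of `G` are at most `K` (no condition if `K = ⊤`) -/
def DegLE {V : Type} (G : SimpleGraph V) (K : ℕ∞) : Prop := ∀ v, (G.neighborSet v).encard ≤ K

/-- all degrees of `G` are at most `K`, those of `u` and `v` at most `K - 1`, and at most `K - 2` if
`u = v` (no condition if `K = ⊤`) -/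
def TermLE {V : Type} (G : SimpleGraph V) (K : ℕ∞) (u v : V) : Prop :=
  DegLE G K ∧ (G.neighborSet u).encard + 1 ≤ K ∧ (G.neighborSet v).encard + 1 ≤ K ∧
    (u = v → (G.neighborSet u).encard + 2 ≤ K)

/-- the maximum number of cycles in a finite graph with exactly `m` edges and all degrees at most `K`
(for `K = ⊤`: in a finite graph with exactly `m` edges) -/
noncomputable def c (K : ℕ∞) (m : ℕ) : ℕ :=
  sSup {k : ℕ | ∃ (V : Type) (_ : Finite V) (G : SimpleGraph V), DegLE G K ∧
    G.edgeSet.ncard = m ∧ k = (cycles G).ncard}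

/-- the maximum number of paths from `u` to `v` in a finite graph with exactly `m` edges and all degrees
at most `K`, the degrees of `u` and `v` being at most `K - 1`, or `K - 2` if `u = v` (for `K = ⊤` there
is no condition on the degrees) -/
noncomputable def p (K : ℕ∞) (m : ℕ) : ℕ :=
  sSup {k : ℕ | ∃ (V : Type) (_ : Finite V) (G : SimpleGraph V) (u v : V), TermLE G K u v ∧
    G.edgeSet.ncard = m ∧ k = (paths G u v).ncard}

variable {V : Type} {K : ℕ∞}

lemma cyc_path {G : SimpleGraph V} {a : V} (w : G.Walk a a) (hw : w.IsCycle) {u v : V}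
    (he : s(u, v) ∈ w.edges) : ∃ q : G.Walk u v, q.IsPath ∧ s(u, v) ∉ q.edges ∧
      ∀ e, e ∈ w.edges ↔ e = s(u, v) ∨ e ∈ q.edges := by
  classical
  have key : ∀ (c : G.Walk u u), c.IsCycle → c.snd = v → ∃ q : G.Walk u v, q.IsPath ∧
      s(u, v) ∉ q.edges ∧ ∀ e, e ∈ c.edges ↔ e = s(u, v) ∨ e ∈ q.edges := by
    intro c hc hs
    cases c with
    | nil => simp at hc
    | cons h p =>
      simp only [SimpleGraph.Walk.snd_cons] at hs
      subst hs
      rw [SimpleGraph.Walk.cons_isCycle_iff] at hc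
      exact ⟨p.reverse, hc.1.reverse, by simpa using hc.2, by simp⟩
  have H : ∀ (c : G.Walk u u), c.IsCycle → s(u, v) ∈ c.edges → ∃ q : G.Walk u v, q.IsPath ∧
      s(u, v) ∉ q.edges ∧ ∀ e, e ∈ c.edges ↔ e = s(u, v) ∨ e ∈ q.edges := by
    intro c hc hs
    by_cases h1 : c.snd = v
    · exact key c hc h1
    · have h2 : c.penultimate = v := by
        cases c with
        | nil => simp at hc
        | cons h p =>
          simp only [SimpleGraph.Walk.snd_cons] at h1
          rw [SimpleGraph.Walk.cons_isCycle_iff] at hc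
          rw [SimpleGraph.Walk.edges_cons, List.mem_cons] at hs
          rcases hs with hs | hs
          · exfalso
            apply h1
            have := Sym2.eq_iff.1 hs
            rcases this with h | h
            · exact h.2.symm
            · exact h.1 ▸ (h.2 ▸ rfl)
          · have hp : ¬ p.Nil := by
              intro hn
              cases hn
              simp at hs
            rw [SimpleGraph.Walk.penultimate_cons_of_not_nil _ _ hp]
            exact (hc.1.eq_penultimate_of_mem_edges hs).symm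
      obtain ⟨q, h3, h4, h5⟩ := key c.reverse hc.reverse (by simpa using h2)
      exact ⟨q, h3, h4, fun e => by rw [← h5 e]; simp⟩
  have hu : u ∈ w.support := SimpleGraph.Walk.fst_mem_support_of_mem_edges w he
  obtain ⟨q, h3, h4, h5⟩ := H (w.rotate u hu) (hw.rotate hu)
    (((w.rotate_edges u hu).mem_iff).2 he)
  exact ⟨q, h3, h4, fun e => by rw [← h5 e]; exact ((w.rotate_edges u hu).mem_iff).symm⟩

lemma cycles_sub (G : SimpleGraph V) : cycles G ⊆ 𝒫 G.edgeSet := by
  rintro s ⟨u, w, -, rfl⟩ e he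
  exact w.edges_subset_edgeSet he

lemma paths_sub (G : SimpleGraph V) (u v : V) : paths G u v ⊆ 𝒫 G.edgeSet := by
  rintro s ⟨w, -, rfl⟩ e he
  exact w.edges_subset_edgeSet he

lemma le_c [Finite V] (G : SimpleGraph V) (hd : DegLE G K) {m : ℕ} (h : G.edgeSet.ncard = m) :
    (cycles G).ncard ≤ c K m := by
  refine le_csSup ⟨2 ^ m, ?_⟩ ⟨V, ‹_›, G, hd, h, rfl⟩
  rintro k ⟨W, hW, H, -, h1, rfl⟩
  calc (cycles H).ncard ≤ (𝒫 H.edgeSet).ncard := Set.ncard_le_ncard (cycles_sub H) (Set.toFinite _)
    _ = 2 ^ m := by rw [Set.ncard_powerset, h1]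

lemma bdd_p (K : ℕ∞) (m : ℕ) : BddAbove {k : ℕ | ∃ (V : Type) (_ : Finite V) (G : SimpleGraph V)
    (u v : V), TermLE G K u v ∧
    G.edgeSet.ncard = m ∧ k = (paths G u v).ncard} := by
  refine ⟨2 ^ m, ?_⟩
  rintro k ⟨W, hW, H, u, v, -, h1, rfl⟩
  calc (paths H u v).ncard ≤ (𝒫 H.edgeSet).ncard :=
        Set.ncard_le_ncard (paths_sub H u v) (Set.toFinite _)
    _ = 2 ^ m := by rw [Set.ncard_powerset, h1]

lemma le_p [Finite V] (G : SimpleGraph V) (u v : V) (hd : TermLE G K u v)
    {m : ℕ} (h : G.edgeSet.ncard = m) : (paths G u v).ncard ≤ p K m :=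
  le_csSup (bdd_p K m) ⟨V, ‹_›, G, u, v, hd, h, rfl⟩

lemma exG (hK : 3 ≤ K) (m : ℕ) : ∃ (V : Type) (_ : Finite V) (G : SimpleGraph V) (v : V),
    TermLE G K v v ∧ G.edgeSet.ncard = m := by
  let e : Fin m → Sym2 (Option (Fin m × Bool)) := fun i => s(some (i, false), some (i, true))
  have hinj : Function.Injective e := by
    intro i j h
    have := Sym2.eq_iff.1 h
    simpa using this
  have h1 : ∀ i b w, (SimpleGraph.fromEdgeSet (Set.range e)).Adj (some (i, b)) w →
      w = some (i, !b) := by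
    intro i b w h
    rw [SimpleGraph.fromEdgeSet_adj] at h
    obtain ⟨⟨j, hj⟩, -⟩ := h
    rcases Sym2.eq_iff.1 hj with ⟨h1, h2⟩ | ⟨h1, h2⟩
    · simp only [Option.some.injEq, Prod.mk.injEq] at h1
      rw [← h2, h1.1, ← h1.2]
      rfl
    · simp only [Option.some.injEq, Prod.mk.injEq] at h2
      rw [← h1, h2.1, ← h2.2]
      rfl
  have h0 : ∀ w, ¬ (SimpleGraph.fromEdgeSet (Set.range e)).Adj none w := by
    intro w h
    rw [SimpleGraph.fromEdgeSet_adj] at h
    obtain ⟨⟨j, hj⟩, -⟩ := h
    rcases Sym2.eq_iff.1 hj with ⟨h1, h2⟩ | ⟨h1, h2⟩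
    · cases h1
    · cases h2
  have h0' : (SimpleGraph.fromEdgeSet (Set.range e)).neighborSet none = ∅ := by
    ext w
    simpa using h0 w
  refine ⟨Option (Fin m × Bool), inferInstance, SimpleGraph.fromEdgeSet (Set.range e), none,
    ⟨?_, ?_, ?_, fun _ => ?_⟩, ?_⟩
  · rintro (_ | ⟨i, b⟩)
    · rw [h0']
      simp
    · have : (SimpleGraph.fromEdgeSet (Set.range e)).neighborSet (some (i, b)) ⊆
          {some (i, !b)} := by
        intro w hw
        exact h1 i b w hw
      refine (Set.encard_le_encard this).trans ?_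
      rw [Set.encard_singleton]
      exact le_trans (by norm_num) hK
  · rw [h0']
    simp only [Set.encard_empty, zero_add]
    exact le_trans (by norm_num) hK
  · rw [h0']
    simp only [Set.encard_empty, zero_add]
    exact le_trans (by norm_num) hK
  · rw [h0']
    simp only [Set.encard_empty, zero_add]
    exact le_trans (by norm_num) hK
  rw [SimpleGraph.edgeSet_fromEdgeSet]
  have : Set.range e \ Sym2.diagSet = Set.range e := by
    ext x
    constructor
    · exact fun h => h.1
    · rintro ⟨i, rfl⟩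
      exact ⟨⟨i, rfl⟩, by simp [e]⟩
  rw [this, Set.ncard_range_of_injective hinj]
  simp

lemma p_pos (hK : 3 ≤ K) (m : ℕ) : 1 ≤ p K m := by
  obtain ⟨V, hV, G, v, hd, h⟩ := exG hK m
  refine le_trans ?_ (le_p G v v hd h)
  rw [Nat.one_le_iff_ne_zero, Ne, Set.ncard_eq_zero (Set.toFinite _)]
  exact Set.Nonempty.ne_empty ⟨_, SimpleGraph.Walk.nil, by simp, rfl⟩

lemma p_attain (hK : 3 ≤ K) (m : ℕ) : ∃ (V : Type) (_ : Finite V) (G : SimpleGraph V) (u v : V),
    TermLE G K u v ∧
    G.edgeSet.ncard = m ∧ p K m = (paths G u v).ncard := by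
  obtain ⟨V, hV, G, v, hd, h⟩ := exG hK m
  have hne : Set.Nonempty {k : ℕ | ∃ (V : Type) (_ : Finite V) (G : SimpleGraph V) (u v : V),
      TermLE G K u v ∧
      G.edgeSet.ncard = m ∧ k = (paths G u v).ncard} :=
    ⟨_, V, hV, G, v, v, hd, h, rfl⟩
  exact Nat.sSup_mem hne (bdd_p K m)

lemma edge_count {W : Type} [Finite W] (E : Set (Sym2 W)) (hE : ∀ e ∈ E, ¬ e.IsDiag) :
    (SimpleGraph.fromEdgeSet E).edgeSet = E := by
  rw [SimpleGraph.edgeSet_fromEdgeSet]
  ext x
  constructor
  · exact fun h => h.1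
  · intro h
    exact ⟨h, by simpa using hE x h⟩

lemma adj_from {W : Type} [Finite W] {E : Set (Sym2 W)} (hE : ∀ e ∈ E, ¬ e.IsDiag) {a b : W}
    (h : s(a, b) ∈ E) : (SimpleGraph.fromEdgeSet E).Adj a b := by
  rw [← SimpleGraph.mem_edgeSet, edge_count E hE]
  exact h

/-- two graphs joined by a bridge -/
lemma glue (hK3 : 3 ≤ K) (m n : ℕ) : p K m * p K n ≤ p K (m + n + 1) := by
  classical
  obtain ⟨V, hV, G, u, v, ⟨hdG, hdu, hdv, hduv⟩, h1, h2⟩ := p_attain hK3 m
  obtain ⟨W, hW, H, x, y, ⟨hdH, hdx, hdy, hdxy⟩, h3, h4⟩ := p_attain hK3 n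
  let f : Sym2 V → Sym2 (V ⊕ W) := Sym2.map Sum.inl
  let g : Sym2 W → Sym2 (V ⊕ W) := Sym2.map Sum.inr
  have hf : Function.Injective f := Sym2.map.injective Sum.inl_injective
  have hg : Function.Injective g := Sym2.map.injective Sum.inr_injective
  let b : Sym2 (V ⊕ W) := s(Sum.inl v, Sum.inr x)
  have hfg : ∀ s t, f s ≠ g t := by
    intro s t
    induction s with | _ a a'
    induction t with | _ c c'
    simp [f, g]
  have hfb : ∀ s, f s ≠ b := by
    intro s
    induction s with | _ a a'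
    simp [f, b]
  have hgb : ∀ s, g s ≠ b := by
    intro s
    induction s with | _ a a'
    simp [g, b]
  let E : Set (Sym2 (V ⊕ W)) := f '' G.edgeSet ∪ (g '' H.edgeSet ∪ {b})
  have hE : ∀ e ∈ E, ¬ e.IsDiag := by
    rintro e (⟨s, hs, rfl⟩ | ⟨s, hs, rfl⟩ | rfl)
    · have := G.not_isDiag_of_mem_edgeSet hs
      rwa [Sym2.isDiag_map Sum.inl_injective]
    · have := H.not_isDiag_of_mem_edgeSet hs
      rwa [Sym2.isDiag_map Sum.inr_injective]
    · simp [b]
  let Q := SimpleGraph.fromEdgeSet E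
  have hK : Q.edgeSet = E := edge_count E hE
  have hc : Q.edgeSet.ncard = m + n + 1 := by
    rw [hK]
    have e1 : (g '' H.edgeSet ∪ {b}).ncard = n + 1 := by
      rw [Set.ncard_union_eq (by
        rw [Set.disjoint_singleton_right]
        rintro ⟨s, -, h⟩
        exact hgb s h) (Set.toFinite _) (Set.toFinite _), Set.ncard_image_of_injective _ hg, h3]
      simp
    rw [Set.ncard_union_eq (by
        rw [Set.disjoint_left]
        rintro _ ⟨s, -, rfl⟩ (⟨t, -, h⟩ | h)
        · exact hfg s t h.symm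
        · exact hfb s h) (Set.toFinite _) (Set.toFinite _), Set.ncard_image_of_injective _ hf, h1,
        e1]
    ring
  have hG : ∀ a a', G.Adj a a' → Q.Adj (Sum.inl a) (Sum.inl a') := fun a a' h =>
    adj_from hE (Or.inl ⟨s(a, a'), h, rfl⟩)
  have hH : ∀ a a', H.Adj a a' → Q.Adj (Sum.inr a) (Sum.inr a') := fun a a' h =>
    adj_from hE (Or.inr (Or.inl ⟨s(a, a'), h, rfl⟩))
  have hb : Q.Adj (Sum.inl v) (Sum.inr x) := adj_from hE (Or.inr (Or.inr rfl))
  have mE : ∀ a b', Q.Adj a b' → s(a, b') ∈ E := by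
    intro a b' h
    rw [← hK]
    exact h
  have nl : ∀ a, Q.neighborSet (Sum.inl a) ⊆
      Sum.inl '' (G.neighborSet a) ∪ (if a = v then {Sum.inr x} else ∅) := by
    intro a w hw
    rcases mE _ _ hw with ⟨t, ht, h⟩ | ⟨t, ht, h⟩ | h
    · induction t with | _ t t'
      simp only [f, Sym2.map_mk] at h
      rcases Sym2.eq_iff.1 h with ⟨h1, h2⟩ | ⟨h1, h2⟩
      · left
        refine ⟨t', ?_, h2⟩
        rw [← Sum.inl_injective h1]
        exact ht
      · left
        refine ⟨t, ?_, h1⟩
        rw [← Sum.inl_injective h2]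
        exact ht.symm
    · induction t with | _ t t'
      simp only [g, Sym2.map_mk] at h
      rcases Sym2.eq_iff.1 h with ⟨h1, h2⟩ | ⟨h1, h2⟩
      · cases h1
      · cases h2
    · rcases Sym2.eq_iff.1 h with ⟨h1, h2⟩ | ⟨h1, h2⟩
      · right
        rw [if_pos (Sum.inl_injective h1), h2]
        rfl
      · cases h1
  have nr : ∀ a, Q.neighborSet (Sum.inr a) ⊆
      Sum.inr '' (H.neighborSet a) ∪ (if a = x then {Sum.inl v} else ∅) := by
    intro a w hw
    rcases mE _ _ hw with ⟨t, ht, h⟩ | ⟨t, ht, h⟩ | h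
    · induction t with | _ t t'
      simp only [f, Sym2.map_mk] at h
      rcases Sym2.eq_iff.1 h with ⟨h1, h2⟩ | ⟨h1, h2⟩
      · cases h1
      · cases h2
    · induction t with | _ t t'
      simp only [g, Sym2.map_mk] at h
      rcases Sym2.eq_iff.1 h with ⟨h1, h2⟩ | ⟨h1, h2⟩
      · left
        refine ⟨t', ?_, h2⟩
        rw [← Sum.inr_injective h1]
        exact ht
      · left
        refine ⟨t, ?_, h1⟩
        rw [← Sum.inr_injective h2]
        exact ht.symm
    · rcases Sym2.eq_iff.1 h with ⟨h1, h2⟩ | ⟨h1, h2⟩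
      · cases h1
      · right
        rw [if_pos (Sum.inr_injective h1), h2]
        rfl
  have bl : ∀ a, (Q.neighborSet (Sum.inl a)).encard ≤
      (G.neighborSet a).encard + (if a = v then 1 else 0) := by
    intro a
    refine (Set.encard_le_encard (nl a)).trans ((Set.encard_union_le _ _).trans ?_)
    rw [Sum.inl_injective.encard_image]
    refine add_le_add le_rfl ?_
    split_ifs <;> simp
  have br : ∀ a, (Q.neighborSet (Sum.inr a)).encard ≤
      (H.neighborSet a).encard + (if a = x then 1 else 0) := by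
    intro a
    refine (Set.encard_le_encard (nr a)).trans ((Set.encard_union_le _ _).trans ?_)
    rw [Sum.inr_injective.encard_image]
    refine add_le_add le_rfl ?_
    split_ifs <;> simp
  have hdeg : TermLE Q K (Sum.inl u) (Sum.inr y) := by
    refine ⟨?_, ?_, ?_, fun h => by cases h⟩
    · rintro (a | a)
      · refine (bl a).trans ?_
        by_cases h : a = v
        · rw [if_pos h, h]
          exact hdv
        · rw [if_neg h, add_zero]
          exact hdG a
      · refine (br a).trans ?_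
        by_cases h : a = x
        · rw [if_pos h, h]
          exact hdx
        · rw [if_neg h, add_zero]
          exact hdH a
    · refine (add_le_add (bl u) le_rfl).trans ?_
      by_cases h : u = v
      · rw [if_pos h, add_assoc, one_add_one_eq_two]
        exact hduv h
      · rw [if_neg h, add_zero]
        exact hdu
    · refine (add_le_add (br y) le_rfl).trans ?_
      by_cases h : y = x
      · rw [if_pos h, add_assoc, one_add_one_eq_two, h]
        exact hdxy h.symm
      · rw [if_neg h, add_zero]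
        exact hdy
  let F : G →g Q := ⟨Sum.inl, fun {a a'} h => hG a a' h⟩
  let F' : H →g Q := ⟨Sum.inr, fun {a a'} h => hH a a' h⟩
  have hF : Function.Injective F := Sum.inl_injective
  have hF' : Function.Injective F' := Sum.inr_injective
  let Φ : Set (Sym2 V) × Set (Sym2 W) → Set (Sym2 (V ⊕ W)) := fun st =>
    f '' st.1 ∪ (g '' st.2 ∪ {b})
  have hΦ : Function.Injective Φ := by
    rintro ⟨s, t⟩ ⟨s', t'⟩ h
    have k1 : ∀ (s : Set (Sym2 V)) (t : Set (Sym2 W)), f ⁻¹' (Φ (s, t)) = s := by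
      intro s t
      ext e
      constructor
      · rintro (⟨e', h1, h2⟩ | ⟨e', h1, h2⟩ | h)
        · exact hf h2 ▸ h1
        · exact absurd h2.symm (hfg _ _)
        · exact absurd h (hfb _)
      · intro h
        exact Or.inl ⟨e, h, rfl⟩
    have k2 : ∀ (s : Set (Sym2 V)) (t : Set (Sym2 W)), g ⁻¹' (Φ (s, t)) = t := by
      intro s t
      ext e
      constructor
      · rintro (⟨e', h1, h2⟩ | ⟨e', h1, h2⟩ | h)
        · exact absurd h2 (hfg _ _)
        · exact hg h2 ▸ h1
        · exact absurd h (hgb _)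
      · intro h
        exact Or.inr (Or.inl ⟨e, h, rfl⟩)
    have a1 := k1 s t
    rw [h, k1] at a1
    have a2 := k2 s t
    rw [h, k2] at a2
    rw [a1, a2]
  have hmaps : Φ '' (paths G u v ×ˢ paths H x y) ⊆ paths Q (Sum.inl u) (Sum.inr y) := by
    rintro _ ⟨⟨s, t⟩, ⟨⟨w, hw, hs⟩, ⟨w', hw', ht⟩⟩, rfl⟩
    dsimp only at hs ht
    subst hs ht
    refine ⟨(w.map F).append (SimpleGraph.Walk.cons hb (w'.map F')), ?_, ?_⟩
    · rw [SimpleGraph.Walk.isPath_def, SimpleGraph.Walk.support_append]
      simp only [SimpleGraph.Walk.support_cons, List.tail_cons]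
      rw [List.nodup_append]
      refine ⟨(hw.map hF).support_nodup,
        (hw'.map hF').support_nodup, ?_⟩
      intro a ha a' ha' hne
      rw [SimpleGraph.Walk.support_map, List.mem_map] at ha ha'
      obtain ⟨z, -, rfl⟩ := ha
      obtain ⟨z', -, rfl⟩ := ha'
      cases hne
    · ext e
      simp only [Φ, Set.mem_union, Set.mem_image, Set.mem_singleton_iff, Set.mem_ofPred_eq,
        SimpleGraph.Walk.edges_append, SimpleGraph.Walk.edges_map, SimpleGraph.Walk.edges_cons,
        List.mem_append, List.mem_cons, List.mem_map]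
      constructor
      · rintro (h | h | h)
        · exact Or.inl h
        · exact Or.inr (Or.inr h)
        · exact Or.inr (Or.inl h)
      · rintro (h | h | h)
        · exact Or.inl h
        · exact Or.inr (Or.inr h)
        · exact Or.inr (Or.inl h)
  calc p K m * p K n = (paths G u v ×ˢ paths H x y).ncard := by rw [h2, h4, Set.ncard_prod]
    _ = (Φ '' (paths G u v ×ˢ paths H x y)).ncard := (Set.ncard_image_of_injective _ hΦ).symm
    _ ≤ (paths Q (Sum.inl u) (Sum.inr y)).ncard := Set.ncard_le_ncard hmaps (Set.toFinite _)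
    _ ≤ p K (m + n + 1) := le_p Q _ _ hdeg hc

lemma through [Finite V] (G : SimpleGraph V) (hd : DegLE G K) {m : ℕ}
    (h : G.edgeSet.ncard = m + 1) (e : Sym2 V)
    (he : e ∈ G.edgeSet) : {s ∈ cycles G | e ∈ s}.ncard ≤ p K m := by
  classical
  induction e with | _ u v
  have hcount : (G.deleteEdges {s(u, v)}).edgeSet.ncard = m := by
    rw [SimpleGraph.edgeSet_deleteEdges, Set.ncard_sdiff_singleton_of_mem he, h]
    simp
  have huv : u ≠ v := fun h => G.loopless.irrefl v (h ▸ he)
  have hu : ((G.deleteEdges {s(u, v)}).neighborSet u).encard + 1 ≤ K := by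
    have h1 : insert v ((G.deleteEdges {s(u, v)}).neighborSet u) ⊆ G.neighborSet u := by
      rintro w (rfl | hw)
      · exact he
      · exact (SimpleGraph.deleteEdges_adj.1 hw).1
    rw [← Set.encard_insert_of_notMem (a := v) (by simp)]
    exact (Set.encard_le_encard h1).trans (hd u)
  have hv : ((G.deleteEdges {s(u, v)}).neighborSet v).encard + 1 ≤ K := by
    have h1 : insert u ((G.deleteEdges {s(u, v)}).neighborSet v) ⊆ G.neighborSet v := by
      rintro w (rfl | hw)
      · exact ((SimpleGraph.mem_edgeSet _).1 he).symm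
      · exact (SimpleGraph.deleteEdges_adj.1 hw).1
    rw [← Set.encard_insert_of_notMem (a := u) (by simp [Sym2.eq_swap])]
    exact (Set.encard_le_encard h1).trans (hd v)
  have hD : TermLE (G.deleteEdges {s(u, v)}) K u v :=
    ⟨fun w => (Set.encard_le_encard fun z hz => (SimpleGraph.deleteEdges_adj.1 hz).1).trans (hd w),
      hu, hv, fun h => absurd h huv⟩
  refine le_trans ?_ (le_p (G.deleteEdges {s(u, v)}) u v hD hcount)
  refine Set.ncard_le_ncard_of_injOn (fun s => s \ {s(u, v)}) ?_ ?_ (Set.toFinite _)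
  · rintro s ⟨⟨a, w, hw, rfl⟩, hs⟩
    obtain ⟨q, h1, h2, h3⟩ := cyc_path w hw hs
    have hq : ∀ e ∈ q.edges, e ∈ (G.deleteEdges {s(u, v)}).edgeSet := by
      intro e he
      rw [SimpleGraph.edgeSet_deleteEdges]
      refine ⟨q.edges_subset_edgeSet he, ?_⟩
      rintro rfl
      exact h2 he
    refine ⟨q.transfer _ hq, h1.transfer hq, ?_⟩
    ext e
    simp only [SimpleGraph.Walk.edges_transfer]
    constructor
    · rintro ⟨k1, k2⟩
      exact ((h3 e).1 k1).resolve_left k2
    · intro k
      refine ⟨(h3 e).2 (Or.inr k), ?_⟩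
      rintro rfl
      exact h2 k
  · rintro s ⟨-, hs⟩ t ⟨-, ht⟩ hst
    dsimp only at hst
    rw [← Set.insert_sdiff_self_of_mem hs, hst, Set.insert_sdiff_self_of_mem ht]

lemma cycles_le [Finite V] (G : SimpleGraph V) (hd : DegLE G K) {m : ℕ}
    (h : G.edgeSet.ncard = m + 1) : (cycles G).ncard ≤ (m + 1) * p K m := by
  classical
  have : cycles G ⊆ ⋃ e ∈ (Set.toFinite G.edgeSet).toFinset, {s ∈ cycles G | e ∈ s} := by
    rintro s ⟨u, w, hw, rfl⟩
    have hne : w.edges ≠ [] := by
      intro h0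
      cases w with
      | nil => simp at hw
      | cons h p => simp at h0
    obtain ⟨e, he⟩ := List.exists_mem_of_ne_nil _ hne
    simp only [Set.mem_iUnion]
    exact ⟨e, by simpa using w.edges_subset_edgeSet he, ⟨u, w, hw, rfl⟩, he⟩
  calc (cycles G).ncard ≤ (⋃ e ∈ (Set.toFinite G.edgeSet).toFinset, {s ∈ cycles G | e ∈ s}).ncard :=
        Set.ncard_le_ncard this (Set.toFinite _)
    _ ≤ ∑ e ∈ (Set.toFinite G.edgeSet).toFinset, {s ∈ cycles G | e ∈ s}.ncard :=
        Finset.set_ncard_biUnion_le _ _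
    _ ≤ ∑ e ∈ (Set.toFinite G.edgeSet).toFinset, p K m :=
        Finset.sum_le_sum fun e he => through G hd h e (by simpa using he)
    _ = (m + 1) * p K m := by
        rw [Finset.sum_const, smul_eq_mul, ← Set.ncard_eq_toFinset_card, h]

lemma c_attain (hK : 3 ≤ K) (m : ℕ) : ∃ (V : Type) (_ : Finite V) (G : SimpleGraph V),
    DegLE G K ∧ G.edgeSet.ncard = m ∧ c K m = (cycles G).ncard := by
  obtain ⟨V, hV, G, v, hd, h⟩ := exG hK m
  have hne : Set.Nonempty {k : ℕ | ∃ (V : Type) (_ : Finite V) (G : SimpleGraph V), DegLE G K ∧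
      G.edgeSet.ncard = m ∧ k = (cycles G).ncard} := ⟨_, V, hV, G, hd.1, h, rfl⟩
  refine Nat.sSup_mem hne ⟨2 ^ m, ?_⟩
  rintro k ⟨W, hW, H, -, h1, rfl⟩
  calc (cycles H).ncard ≤ (𝒫 H.edgeSet).ncard := Set.ncard_le_ncard (cycles_sub H) (Set.toFinite _)
    _ = 2 ^ m := by rw [Set.ncard_powerset, h1]

lemma c_le (hK : 3 ≤ K) (m : ℕ) : c K (m + 1) ≤ (m + 1) * p K m := by
  obtain ⟨V, hV, G, hd, h1, h2⟩ := c_attain hK (m + 1)
  rw [h2]
  exact cycles_le G hd h1

/-- closing the paths to cycles by a new vertex -/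
lemma close (hK3 : 3 ≤ K) (m : ℕ) (hm : 2 ≤ p K m) : p K m ≤ c K (m + 2) := by
  classical
  obtain ⟨V, hV, G, u, v, ⟨hdG, hdu, hdv, -⟩, h1, h2⟩ := p_attain hK3 m
  have huv : u ≠ v := by
    rintro rfl
    have : paths G u u ⊆ {∅} := by
      rintro s ⟨w, hw, rfl⟩
      rw [SimpleGraph.Walk.isPath_iff_nil] at hw
      cases hw
      simp
    have := Set.ncard_le_ncard this (Set.toFinite _)
    rw [← h2] at this
    simp at this
    omega
  let f : Sym2 V → Sym2 (Option V) := Sym2.map some
  have hf : Function.Injective f := Sym2.map.injective (Option.some_injective V)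
  let a : Sym2 (Option V) := s(none, some u)
  let b : Sym2 (Option V) := s(some v, none)
  have hab : a ≠ b := by
    simp only [a, b]
    intro h
    rcases Sym2.eq_iff.1 h with h | h
    · cases h.1
    · exact huv (Option.some_injective V h.2)
  have hfa : ∀ s, f s ≠ a := by
    intro s
    induction s with | _ x x'
    simp [f, a]
  have hfb : ∀ s, f s ≠ b := by
    intro s
    induction s with | _ x x'
    simp [f, b]
  let E : Set (Sym2 (Option V)) := f '' G.edgeSet ∪ {a, b}
  have hE : ∀ e ∈ E, ¬ e.IsDiag := by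
    rintro e (⟨s, hs, rfl⟩ | rfl | rfl)
    · have := G.not_isDiag_of_mem_edgeSet hs
      rwa [Sym2.isDiag_map (Option.some_injective V)]
    · simp [a]
    · simp [b]
  let Q := SimpleGraph.fromEdgeSet E
  have hK : Q.edgeSet = E := edge_count E hE
  have hc : Q.edgeSet.ncard = m + 2 := by
    rw [hK]
    rw [Set.ncard_union_eq (by
        rw [Set.disjoint_left]
        rintro _ ⟨s, -, rfl⟩ (h | h)
        · exact hfa s h
        · exact hfb s h) (Set.toFinite _) (Set.toFinite _), Set.ncard_image_of_injective _ hf, h1,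
        Set.ncard_pair hab]
  have hG : ∀ x x', G.Adj x x' → Q.Adj (some x) (some x') := fun x x' h =>
    adj_from hE (Or.inl ⟨s(x, x'), h, rfl⟩)
  have ha : Q.Adj none (some u) := adj_from hE (Or.inr (Or.inl rfl))
  have hb : Q.Adj (some v) none := adj_from hE (Or.inr (Or.inr rfl))
  have mE : ∀ a b', Q.Adj a b' → s(a, b') ∈ E := by
    intro a b' h
    rw [← hK]
    exact h
  have ns : ∀ x, Q.neighborSet (some x) ⊆
      some '' (G.neighborSet x) ∪ (if x = u ∨ x = v then {none} else ∅) := by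
    intro x w hw
    rcases mE _ _ hw with ⟨t, ht, h⟩ | h | h
    · induction t with | _ t t'
      simp only [f, Sym2.map_mk] at h
      rcases Sym2.eq_iff.1 h with ⟨h1, h2⟩ | ⟨h1, h2⟩
      · left
        refine ⟨t', ?_, h2⟩
        rw [← Option.some_injective V h1]
        exact ht
      · left
        refine ⟨t, ?_, h1⟩
        rw [← Option.some_injective V h2]
        exact ht.symm
    · rcases Sym2.eq_iff.1 h with ⟨h1, h2⟩ | ⟨h1, h2⟩
      · cases h1
      · right
        rw [if_pos (Or.inl (Option.some_injective V h1)), h2]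
        rfl
    · rcases Sym2.eq_iff.1 h with ⟨h1, h2⟩ | ⟨h1, h2⟩
      · right
        rw [if_pos (Or.inr (Option.some_injective V h1)), h2]
        rfl
      · cases h1
  have n0 : Q.neighborSet none ⊆ {some u, some v} := by
    intro w hw
    rcases mE _ _ hw with ⟨t, ht, h⟩ | h | h
    · induction t with | _ t t'
      simp only [f, Sym2.map_mk] at h
      rcases Sym2.eq_iff.1 h with ⟨h1, h2⟩ | ⟨h1, h2⟩
      · cases h1
      · cases h2
    · rcases Sym2.eq_iff.1 h with ⟨h1, h2⟩ | ⟨h1, h2⟩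
      · exact Or.inl h2
      · cases h1
    · rcases Sym2.eq_iff.1 h with ⟨h1, h2⟩ | ⟨h1, h2⟩
      · cases h1
      · exact Or.inr h2
  have hdeg : DegLE Q K := by
    rintro (_ | x)
    · refine (Set.encard_le_encard n0).trans ((Set.encard_insert_le _ _).trans ?_)
      rw [Set.encard_singleton]
      exact le_trans (by norm_num) hK3
    · refine (Set.encard_le_encard (ns x)).trans ((Set.encard_union_le _ _).trans ?_)
      rw [(Option.some_injective V).encard_image]
      by_cases h : x = u ∨ x = v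
      · rw [if_pos h, Set.encard_singleton]
        rcases h with rfl | rfl
        · exact hdu
        · exact hdv
      · rw [if_neg h, Set.encard_empty, add_zero]
        exact hdG x
  let F : G →g Q := ⟨some, fun {a a'} h => hG a a' h⟩
  have hF : Function.Injective F := Option.some_injective V
  let Φ : Set (Sym2 V) → Set (Sym2 (Option V)) := fun s => f '' s ∪ {a, b}
  have hΦ : Function.Injective Φ := by
    intro s s' h
    have k1 : ∀ (s : Set (Sym2 V)), f ⁻¹' (Φ s) = s := by
      intro s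
      ext e
      constructor
      · rintro (⟨e', h1, h2⟩ | h | h)
        · exact hf h2 ▸ h1
        · exact absurd h (hfa _)
        · exact absurd h (hfb _)
      · intro h
        exact Or.inl ⟨e, h, rfl⟩
    rw [← k1 s, h, k1]
  have hmaps : Φ '' (paths G u v) ⊆ cycles Q := by
    rintro _ ⟨s, ⟨w, hw, rfl⟩, rfl⟩
    refine ⟨none, SimpleGraph.Walk.cons ha ((w.map F).concat hb), ?_, ?_⟩
    · rw [SimpleGraph.Walk.cons_isCycle_iff]
      refine ⟨(hw.map hF).concat ?_ hb, ?_⟩
      · rw [SimpleGraph.Walk.support_map, List.mem_map]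
        rintro ⟨z, -, hz⟩
        cases hz
      · rw [SimpleGraph.Walk.edges_concat, List.concat_eq_append, List.mem_append]
        rintro (h | h)
        · rw [SimpleGraph.Walk.edges_map, List.mem_map] at h
          obtain ⟨z, -, hz⟩ := h
          exact hfa z hz
        · exact hab (List.mem_singleton.1 h)
    · ext e
      simp only [Φ, Set.mem_union, Set.mem_image, Set.mem_insert_iff, Set.mem_singleton_iff,
        Set.mem_ofPred_eq, SimpleGraph.Walk.edges_concat, SimpleGraph.Walk.edges_map,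
        SimpleGraph.Walk.edges_cons, List.concat_eq_append, List.mem_append, List.mem_cons,
        List.mem_map, List.not_mem_nil, or_false]
      constructor
      · rintro (h | h | h)
        · exact Or.inr (Or.inl h)
        · exact Or.inl h
        · exact Or.inr (Or.inr h)
      · rintro (h | h | h)
        · exact Or.inr (Or.inl h)
        · exact Or.inl h
        · exact Or.inr (Or.inr h)
  calc p K m = (paths G u v).ncard := h2
    _ = (Φ '' (paths G u v)).ncard := (Set.ncard_image_of_injective _ hΦ).symm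
    _ ≤ (cycles Q).ncard := Set.ncard_le_ncard hmaps (Set.toFinite _)
    _ ≤ c K (m + 2) := le_c Q hdeg hc

lemma p3 (hK3 : 3 ≤ K) : 2 ≤ p K 3 := by
  classical
  let E : Finset (Sym2 (Fin 3)) := {s(0, 1), s(0, 2), s(2, 1)}
  have hE : ∀ e ∈ (E : Set (Sym2 (Fin 3))), ¬ e.IsDiag := by
    intro e he
    have : e ∈ E := he
    revert e
    decide
  let Q := SimpleGraph.fromEdgeSet (E : Set (Sym2 (Fin 3)))
  have hK : Q.edgeSet.ncard = 3 := by
    rw [show Q.edgeSet = E from edge_count _ hE, Set.ncard_coe_finset]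
    decide
  have hd : ∀ a : Fin 3, (Q.neighborSet a).encard ≤ 2 := by
    intro a
    have h1 : Q.neighborSet a ⊆ ((({a} : Finset (Fin 3))ᶜ : Finset (Fin 3)) : Set (Fin 3)) := by
      intro w hw
      have : a ≠ w := (show Q.Adj a w from hw).ne
      simpa using this.symm
    refine (Set.encard_le_encard h1).trans ?_
    rw [Set.encard_coe_eq_coe_finsetCard, Finset.card_compl]
    simp
  have hT : TermLE Q K 0 1 :=
    ⟨fun a => (hd a).trans (le_trans (by norm_num) hK3),
      (add_le_add (hd 0) le_rfl).trans (le_trans (by norm_num) hK3),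
      (add_le_add (hd 1) le_rfl).trans (le_trans (by norm_num) hK3), fun h => absurd h (by decide)⟩
  refine le_trans ?_ (le_p Q 0 1 hT hK)
  have h01 : Q.Adj 0 1 := adj_from hE (by simp [E])
  have h02 : Q.Adj 0 2 := adj_from hE (by simp [E])
  have h21 : Q.Adj 2 1 := adj_from hE (by simp [E])
  have h1 : ({s(0, 1)} : Set (Sym2 (Fin 3))) ∈ paths Q 0 1 := by
    refine ⟨h01.toWalk, SimpleGraph.Walk.IsPath.of_adj h01, ?_⟩
    ext e
    simp
  have h2 : ({s(0, 2), s(2, 1)} : Set (Sym2 (Fin 3))) ∈ paths Q 0 1 := by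
    refine ⟨SimpleGraph.Walk.cons h02 (SimpleGraph.Walk.cons h21 SimpleGraph.Walk.nil), ?_, ?_⟩
    · rw [SimpleGraph.Walk.isPath_def]
      simp
    · ext e
      simp
  have hne : ({s(0, 1)} : Set (Sym2 (Fin 3))) ≠ {s(0, 2), s(2, 1)} := by
    intro h
    have : s((0 : Fin 3), 2) ∈ ({s(0, 1)} : Set (Sym2 (Fin 3))) := by rw [h]; simp
    simp at this
  have hsub : ({{s(0, 1)}, {s(0, 2), s(2, 1)}} : Set (Set (Sym2 (Fin 3)))) ⊆ paths Q 0 1 := by
    rintro s (rfl | rfl)
    · exact h1
    · exact h2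
  have := Set.ncard_le_ncard hsub (Set.toFinite _)
  have h3 := Set.ncard_pair hne
  omega

lemma p_le (hK : 3 ≤ K) (m : ℕ) : p K m ≤ 2 ^ m := by
  obtain ⟨V, hV, G, u, v, -, h1, h2⟩ := p_attain hK m
  rw [h2]
  calc (paths G u v).ncard ≤ (𝒫 G.edgeSet).ncard :=
        Set.ncard_le_ncard (paths_sub G u v) (Set.toFinite _)
    _ = 2 ^ m := by rw [Set.ncard_powerset, h1]

lemma p_mono (hK : 3 ≤ K) (m : ℕ) : p K m ≤ p K (m + 1) := by
  have := glue hK m 0
  have h := p_pos hK 0
  simp only [Nat.add_zero] at this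
  nlinarith

noncomputable def U (K : ℕ∞) (n : ℕ) : ℝ := - Real.log (p K (n - 1))

lemma log_p0 (hK : 3 ≤ K) : Real.log (p K 0) ≤ 0 :=
  Real.log_nonpos (by positivity) (by exact_mod_cast (by simpa using p_le hK 0))

lemma sub (hK : 3 ≤ K) : Subadditive (U K) := by
  intro m n
  unfold U
  rcases Nat.eq_zero_or_pos m with rfl | hm
  · have := log_p0 hK
    simp only [Nat.zero_add, Nat.zero_sub]
    linarith
  rcases Nat.eq_zero_or_pos n with rfl | hn
  · have := log_p0 hK
    simp only [Nat.add_zero, Nat.zero_sub]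
    linarith
  have h := glue hK (m-1) (n-1)
  have e : m - 1 + (n - 1) + 1 = m + n - 1 := by omega
  rw [e] at h
  have h' : (p K (m-1) : ℝ) * p K (n-1) ≤ p K (m+n-1) := by exact_mod_cast h
  have h1 : (0:ℝ) < p K (m-1) := by exact_mod_cast p_pos hK _
  have h2 : (0:ℝ) < p K (n-1) := by exact_mod_cast p_pos hK _
  have := Real.log_le_log (mul_pos h1 h2) h'
  rw [Real.log_mul h1.ne' h2.ne'] at this
  linarith

lemma bddb (hK : 3 ≤ K) : BddBelow (Set.range fun n : ℕ => U K n / n) := by
  refine ⟨-Real.log 2, ?_⟩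
  rintro _ ⟨n, rfl⟩
  have hl := Real.log_pos one_lt_two
  rcases Nat.eq_zero_or_pos n with rfl | hn
  · simp only [Nat.cast_zero, div_zero]
    linarith
  · dsimp only
    rw [le_div_iff₀ (by exact_mod_cast hn)]
    unfold U
    have : Real.log (p K (n-1)) ≤ ((n-1 : ℕ) : ℝ) * Real.log 2 := by
      rw [← Real.log_pow]
      exact Real.log_le_log (by exact_mod_cast p_pos hK _) (by exact_mod_cast p_le hK _)
    have h3 : ((n-1 : ℕ) : ℝ) ≤ n := by exact_mod_cast Nat.sub_le n 1
    nlinarith

noncomputable def lam (hK : 3 ≤ K) : ℝ := - (sub hK).lim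

lemma T_lim (hK : 3 ≤ K) :
    Tendsto (fun n : ℕ => Real.log (p K (n - 1)) / n) atTop (𝓝 (lam hK)) := by
  have := ((sub hK).tendsto_lim (bddb hK)).neg
  refine this.congr fun n => ?_
  unfold U
  ring

lemma T_le (hK : 3 ≤ K) (m : ℕ) : Real.log (p K m) ≤ lam hK * (m + 1) := by
  have := (sub hK).lim_le_div (bddb hK) (n := m + 1) (by omega)
  have h0 : (0:ℝ) < ((m + 1 : ℕ) : ℝ) := by positivity
  have hU : U K (m + 1) = - Real.log (p K m) := by
    unfold U
    simp only [Nat.add_sub_cancel]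
  rw [le_div_iff₀ h0, hU] at this
  push_cast at this
  unfold lam
  rw [neg_mul]
  linarith

noncomputable def L (hK : 3 ≤ K) : ℝ := Real.exp (lam hK)

lemma p_le_L (hK : 3 ≤ K) (m : ℕ) : (p K m : ℝ) ≤ L hK ^ (m + 1) := by
  have h : (0:ℝ) < p K m := by exact_mod_cast p_pos hK m
  rw [← Real.exp_log h, L, ← Real.exp_nat_mul]
  apply Real.exp_le_exp.2
  have := T_le hK m
  push_cast
  linarith

lemma lim_p (hK : 3 ≤ K) :
    Tendsto (fun m : ℕ => (p K m : ℝ) ^ ((1 : ℝ) / (m + 1))) atTop (𝓝 (L hK)) := by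
  have h := (Real.continuous_exp.tendsto (lam hK)).comp
    ((T_lim hK).comp (tendsto_add_atTop_nat 1))
  refine h.congr fun m => ?_
  have h0 : (0:ℝ) < p K m := by exact_mod_cast p_pos hK m
  rw [Real.rpow_def_of_pos h0]
  simp only [Function.comp, Nat.add_sub_cancel]
  push_cast
  congr 1
  ring

lemma p_ge_two (hK : 3 ≤ K) (m : ℕ) (hm : 3 ≤ m) : 2 ≤ p K m := by
  induction m, hm using Nat.le_induction with
  | base => exact p3 hK
  | succ n hn ih => exact ih.trans (p_mono hK n)

lemma lim_c (hK : 3 ≤ K) :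
    Tendsto (fun m : ℕ => (c K m : ℝ) ^ ((1 : ℝ) / m)) atTop (𝓝 (L hK)) := by
  have hlog : Tendsto (fun m : ℕ => Real.log (c K m) / m) atTop (𝓝 (lam hK)) := by
    have h1 : Tendsto (fun m : ℕ => Real.log (p K (m - 2)) / m) atTop (𝓝 (lam hK)) := by
      have ha := ((T_lim hK).comp (tendsto_sub_atTop_nat 1)).mul
        ((tendsto_const_nhds (x := (1:ℝ))).sub tendsto_one_div_atTop_nhds_zero_nat)
      simp only [sub_zero, mul_one] at ha
      refine ha.congr' ?_
      filter_upwards [eventually_ge_atTop 2] with m hm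
      simp only [Function.comp]
      have e : m - 1 - 1 = m - 2 := by omega
      rw [e, Nat.cast_sub (by omega)]
      have h0 : (2:ℝ) ≤ m := by exact_mod_cast hm
      have h2 : (m:ℝ) - 1 ≠ 0 := by linarith
      have h3 : (m:ℝ) ≠ 0 := by linarith
      push_cast
      field_simp
    have h2 : Tendsto (fun m : ℕ => Real.log m / m + Real.log (p K (m - 1)) / m) atTop
        (𝓝 (lam hK)) := by
      have ha := (Real.isLittleO_log_id_atTop.tendsto_div_nhds_zero).comp
        (tendsto_natCast_atTop_atTop (R := ℝ))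
      have := ha.add (T_lim hK)
      simp only [zero_add] at this
      exact this
    refine tendsto_of_tendsto_of_tendsto_of_le_of_le' h1 h2 ?_ ?_
    · filter_upwards [eventually_ge_atTop 5] with m hm
      have h := close hK (m - 2) (p_ge_two hK _ (by omega))
      have e : m - 2 + 2 = m := by omega
      rw [e] at h
      have h0 : (0:ℝ) < m := by exact_mod_cast (by omega : 0 < m)
      have h3 : (0:ℝ) < p K (m - 2) := by exact_mod_cast p_pos hK _
      gcongr
    · filter_upwards [eventually_ge_atTop 5] with m hm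
      have h := close hK (m - 2) (p_ge_two hK _ (by omega))
      have e : m - 2 + 2 = m := by omega
      rw [e] at h
      have h' := c_le hK (m - 1)
      have e' : m - 1 + 1 = m := by omega
      rw [e'] at h'
      have h0 : (0:ℝ) < m := by exact_mod_cast (by omega : 0 < m)
      have h3 : (0:ℝ) < p K (m - 1) := by exact_mod_cast p_pos hK _
      have h4 : (0:ℝ) < c K m := by exact_mod_cast lt_of_lt_of_le (p_pos hK _) h
      have h5 : (c K m : ℝ) ≤ m * p K (m - 1) := by exact_mod_cast h'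
      rw [← add_div, ← Real.log_mul h0.ne' h3.ne']
      gcongr
  have h := (Real.continuous_exp.tendsto (lam hK)).comp hlog
  refine h.congr' ?_
  filter_upwards [eventually_ge_atTop 5] with m hm
  have h := close hK (m - 2) (p_ge_two hK _ (by omega))
  have e : m - 2 + 2 = m := by omega
  rw [e] at h
  have h4 : (0:ℝ) < c K m := by exact_mod_cast lt_of_lt_of_le (p_pos hK _) h
  rw [Real.rpow_def_of_pos h4]
  simp only [Function.comp]
  congr 1
  ring

lemma approx (hK : 3 ≤ K) (x : ℝ) (h0 : 0 ≤ x) (hx : x < L hK) :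
    ∃ m : ℕ, x ^ (m + 1) < p K m := by
  by_contra hcon
  push Not at hcon
  have : L hK ≤ x := by
    refine le_of_tendsto (lim_p hK) (Eventually.of_forall fun m => ?_)
    have h1 : (0:ℝ) ≤ p K m := by positivity
    calc (p K m : ℝ) ^ ((1 : ℝ) / (m + 1)) ≤ (x ^ (m + 1)) ^ ((1 : ℝ) / (m + 1)) :=
          Real.rpow_le_rpow h1 (hcon m) (by positivity)
      _ = x := by
          rw [← Real.rpow_natCast, ← Real.rpow_mul h0]
          push_cast
          rw [mul_one_div_cancel (by positivity), Real.rpow_one]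
  linarith

lemma one_lt_L (hK : 3 ≤ K) : 1 < L hK := by
  by_contra hcon
  push Not at hcon
  have h := p_le_L hK 3
  have h1 : L hK ^ (3 + 1) ≤ 1 := pow_le_one₀ (Real.exp_pos _).le hcon
  have h2 : (2:ℝ) ≤ p K 3 := by exact_mod_cast p3 hK
  linarith

/-- the degree of a vertex is at most the number of the edges -/
lemma deg_le [Finite V] (G : SimpleGraph V) {m : ℕ} (h : G.edgeSet.ncard = m) (v : V) :
    (G.neighborSet v).encard ≤ m := by
  have h1 : (fun w => s(v, w)) '' (G.neighborSet v) ⊆ G.edgeSet := by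
    rintro _ ⟨w, hw, rfl⟩
    exact hw
  have h2 : Function.Injective (fun w => s(v, w)) := by
    intro a b hab
    have := Sym2.eq_iff.1 hab
    rcases this with h | h
    · exact h.2
    · exact h.2.trans h.1
  rw [← h2.encard_image, ← h, Set.Finite.cast_ncard_eq (Set.toFinite _)]
  exact Set.encard_le_encard h1

lemma p_top (m : ℕ) (K : ℕ) (hK : m + 2 ≤ K) : p ⊤ m ≤ p K m := by
  obtain ⟨V, hV, G, u, v, -, h1, h2⟩ := p_attain (K := ⊤) le_top m
  rw [h2]
  have hK' : ((m : ℕ∞) + 2) ≤ (K : ℕ∞) := by exact_mod_cast hK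
  have a1 : ∀ w, (G.neighborSet w).encard + 2 ≤ (K : ℕ∞) := fun w =>
    (add_le_add (deg_le G h1 w) le_rfl).trans hK'
  have a2 : ∀ w, (G.neighborSet w).encard + 1 ≤ (K : ℕ∞) := fun w =>
    (add_le_add le_rfl (by norm_num)).trans (a1 w)
  have a3 : ∀ w, (G.neighborSet w).encard ≤ (K : ℕ∞) := fun w => le_self_add.trans (a2 w)
  exact le_p G u v ⟨a3, a2 u, a2 v, fun _ => a1 u⟩ h1

lemma c_mono {K K' : ℕ∞} (hK : 3 ≤ K) (h : K ≤ K') (m : ℕ) : c K m ≤ c K' m := by
  obtain ⟨V, hV, G, hd, h1, h2⟩ := c_attain hK m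
  rw [h2]
  exact le_c G (fun v => (hd v).trans h) h1

lemma L_mono {K K' : ℕ∞} (hK : 3 ≤ K) (hK' : 3 ≤ K') (h : K ≤ K') : L hK ≤ L hK' :=
  le_of_tendsto_of_tendsto' (lim_c hK) (lim_c hK') fun m =>
    Real.rpow_le_rpow (by positivity) (by exact_mod_cast c_mono hK h m) (by positivity)

/-- **The growth rates exist.** For every `K` with `3 ≤ K ≤ ∞` there is `L K > 1` with
`c K m ^ (1 / m) → L K` and `p K m ^ (1 / (m + 1)) → L K`; moreover `p K m * p K n ≤ p K (m + n + 1)`,
`p K m ≤ L K ^ (m + 1)`, `c K m ≤ m L K ^ m` for all `m ≥ 1`, `L K` is the supremum of the numbers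
`p K m ^ (1 / (m + 1))`, and `L ∞` is the supremum and the limit of the numbers `L K`, `K` finite. -/
theorem result : ∃ L : ℕ∞ → ℝ,
    (∀ K : ℕ∞, 3 ≤ K → 1 < L K ∧
      Tendsto (fun m : ℕ => (c K m : ℝ) ^ ((1 : ℝ) / m)) atTop (𝓝 (L K)) ∧
      Tendsto (fun m : ℕ => (p K m : ℝ) ^ ((1 : ℝ) / (m + 1))) atTop (𝓝 (L K)) ∧
      (∀ m n : ℕ, p K m * p K n ≤ p K (m + n + 1)) ∧
      (∀ m : ℕ, (p K m : ℝ) ≤ L K ^ (m + 1)) ∧
      (∀ m : ℕ, (c K (m + 1) : ℝ) ≤ (m + 1) * L K ^ (m + 1)) ∧
      (∀ x : ℝ, 0 ≤ x → x < L K → ∃ m : ℕ, x ^ (m + 1) < p K m)) ∧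
    (∀ K K' : ℕ∞, 3 ≤ K → K ≤ K' → L K ≤ L K') ∧
    Tendsto (fun K : ℕ => L K) atTop (𝓝 (L ⊤)) := by
  classical
  refine ⟨fun K => if h : 3 ≤ K then L h else 0, ?_, ?_, ?_⟩
  · intro K hK
    simp only [dif_pos hK]
    refine ⟨one_lt_L hK, lim_c hK, lim_p hK, glue hK, p_le_L hK, fun m => ?_, approx hK⟩
    have h := c_le hK m
    have h1 : (c K (m + 1) : ℝ) ≤ (m + 1) * p K m := by exact_mod_cast h
    have h2 := p_le_L hK m
    exact h1.trans (by gcongr)
  · intro K K' hK h
    simp only [dif_pos hK, dif_pos (hK.trans h)]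
    exact L_mono hK _ h
  · have hT : (3 : ℕ∞) ≤ ⊤ := le_top
    simp only [dif_pos hT]
    rw [tendsto_order]
    constructor
    · intro x hx
      obtain ⟨m, hm⟩ := approx hT (max x 0) (le_max_right _ _) (max_lt hx (Real.exp_pos _))
      filter_upwards [eventually_ge_atTop (m + 3)] with K hK
      have h3 : (3 : ℕ∞) ≤ (K : ℕ∞) := by exact_mod_cast (by omega : 3 ≤ K)
      simp only [dif_pos h3]
      have h4 : (p ⊤ m : ℝ) ≤ p K m := by exact_mod_cast p_top m K (by omega)
      have h5 := p_le_L h3 m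
      have h6 : (max x 0) ^ (m + 1) < L h3 ^ (m + 1) := by linarith
      exact lt_of_le_of_lt (le_max_left _ _) (lt_of_pow_lt_pow_left₀ _ (Real.exp_pos _).le h6)
    · intro x hx
      filter_upwards [eventually_ge_atTop 3] with K hK
      have h3 : (3 : ℕ∞) ≤ (K : ℕ∞) := by exact_mod_cast hK
      simp only [dif_pos h3]
      exact lt_of_le_of_lt (L_mono h3 hT le_top) hx

end Pool.Agent.Results.MP_16979d_co.GrowthRateExists
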